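import Mathlib
import Pool.Agent.H17.GS.Stm
import Pool.Agent.H77.TF.Pri

/-!
# Project GS, module EQV: Jacobian syzygies and logarithmic fields
-/

set_option autoImplicit false

open MvPolynomial Module Pool.Agent.H77.TF Pool.Agent.H17.GS

namespace Pool.Agent.H82.GS

section

variable {K : Type} [Field K]

theorem hom_fac {u j : ℕ} {f g h : MvPolynomial (Fin 3) K} (hf : f.IsHomogeneous u)
    (hg : g.IsHomogeneous (u + j)) (hfg : g = f * h) : g = f * homogeneousComponent j h := by
  have h1 : homogeneousComponent (u + j) g = g := by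
    rw [homogeneousComponent_of_mem ((mem_homogeneousSubmodule _ _).2 hg), if_pos rfl]
  have h2 : ∀ i, homogeneousComponent (u + j) (f * homogeneousComponent i h) =
      if u + j = u + i then f * homogeneousComponent i h else 0 := by
    intro i
    exact homogeneousComponent_of_mem
      ((mem_homogeneousSubmodule _ _).2 (hf.mul (homogeneousComponent_isHomogeneous i h)))
  have h3 : g = ∑ i ∈ Finset.range (h.totalDegree + 1), f * homogeneousComponent i h := by
    rw [← Finset.mul_sum, sum_homogeneousComponent, hfg]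
  rcases Nat.lt_or_ge j (h.totalDegree + 1) with hj | hj
  · rw [← h1, h3, map_sum, Finset.sum_eq_single j]
    · rw [h2, if_pos rfl]
    · intro i _ hi
      rw [h2, if_neg (by omega)]
    · intro hj'
      exact absurd (Finset.mem_range.2 hj) hj'
  · rw [← h1, h3, map_sum, homogeneousComponent_eq_zero _ _ (by omega), mul_zero]
    apply Finset.sum_eq_zero
    intro i hi
    rw [h2, if_neg]
    have := Finset.mem_range.1 hi
    omega

theorem hom_lin (a : Fin 3 → K) : (lin a).IsHomogeneous 1 := by
  unfold lin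
  exact IsHomogeneous.sum _ _ _ fun i _ => isHomogeneous_C_mul_X _ _

theorem pderiv_lin (a : Fin 3 → K) (j : Fin 3) : pderiv j (lin a) = C (a j) := by
  classical
  unfold lin
  rw [map_sum, Finset.sum_eq_single j]
  · rw [pderiv_C_mul, pderiv_X_self, mul_one]
  · intro i _ hi
    rw [pderiv_C_mul, pderiv_X_of_ne hi, mul_zero]
  · intro h
    exact absurd (Finset.mem_univ _) h

theorem leib {n : ℕ} (A : Fin n → Fin 3 → K) (v : Fin 3 → MvPolynomial (Fin 3) K)
    (s : Finset (Fin n)) : ∑ j, v j * pderiv j (∏ i ∈ s, lin (A i)) =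
      ∑ i ∈ s, (∏ k ∈ s.erase i, lin (A k)) * evl (A i) v := by
  classical
  induction s using Finset.induction_on with
  | empty => simp
  | insert a s ha ih =>
    rw [Finset.prod_insert ha, Finset.sum_insert ha, Finset.erase_insert ha]
    have h1 : ∀ j, v j * pderiv j (lin (A a) * ∏ i ∈ s, lin (A i)) =
        lin (A a) * (v j * pderiv j (∏ i ∈ s, lin (A i))) +
          (∏ i ∈ s, lin (A i)) * (C (A a j) * v j) := by
      intro j
      rw [Derivation.leibniz, pderiv_lin, smul_eq_mul, smul_eq_mul]
      ring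
    have h2 : ∀ i ∈ s, (∏ k ∈ (insert a s).erase i, lin (A k)) * evl (A i) v =
        lin (A a) * ((∏ k ∈ s.erase i, lin (A k)) * evl (A i) v) := by
      intro i hi
      have hne : a ≠ i := by
        rintro rfl
        exact ha hi
      rw [Finset.erase_insert_of_ne hne, Finset.prod_insert, mul_assoc]
      exact fun h => ha (Finset.mem_of_mem_erase h)
    rw [Finset.sum_congr rfl fun j _ => h1 j, Finset.sum_add_distrib, ← Finset.mul_sum,
      ← Finset.mul_sum, ih, Finset.sum_congr rfl h2, ← Finset.mul_sum, add_comm]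
    rfl

end

theorem eqv : S_EQV := by
  classical
  intro K _ _ n A hA hn e
  obtain ⟨f, hf⟩ : ∃ f, f = ∏ i, lin (A i) := ⟨_, rfl⟩
  have hf0 : f ≠ 0 := by
    rw [hf]
    exact Finset.prod_ne_zero_iff.2 fun i _ => lin_ne_zero (hA.1 i)
  have hfh : f.IsHomogeneous n := by
    rw [hf]
    have h1 := IsHomogeneous.prod Finset.univ (fun i : Fin n => lin (A i)) (fun _ => 1)
      fun i _ => hom_lin (A i)
    simpa using h1
  have hn0 : (n : K) ≠ 0 := Nat.cast_ne_zero.2 (by omega)
  have heu : ∑ j, (X j : MvPolynomial (Fin 3) K) * pderiv j f = C (n : K) * f := by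
    rw [hfh.sum_X_mul_pderiv, nsmul_eq_mul, map_natCast]
  have hCn : (C (n : K) : MvPolynomial (Fin 3) K) ≠ 0 := by
    rw [Ne, C_eq_zero]
    exact hn0
  constructor
  · rintro ⟨v, hv, hvh, hv0⟩
    unfold IsSyz at hv
    refine ⟨v, ?_, hvh, ?_⟩
    · intro i
      rw [leib A v Finset.univ, ← Finset.add_sum_erase _ _ (Finset.mem_univ i)] at hv
      obtain ⟨⟨_, _, hpr⟩, hpc⟩ := pri K 3 (A i) (hA.1 i)
      have h1 : lin (A i) ∣ ∑ x ∈ Finset.univ.erase i,
          (∏ k ∈ Finset.univ.erase x, lin (A k)) * evl (A x) v := by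
        refine Finset.dvd_sum fun x hx => Dvd.dvd.mul_right ?_ _
        exact Finset.dvd_prod_of_mem (fun k => lin (A k))
          (Finset.mem_erase.2 ⟨(Finset.ne_of_mem_erase hx).symm, Finset.mem_univ _⟩)
      have h2 : lin (A i) ∣ (∏ k ∈ Finset.univ.erase i, lin (A k)) * evl (A i) v := by
        rw [eq_neg_of_add_eq_zero_left hv]
        exact (dvd_neg).2 h1
      rcases hpr _ _ h2 with h3 | h3
      · exfalso
        have hp : Prime (lin (A i)) := (pri K 3 (A i) (hA.1 i)).1
        obtain ⟨k, hk, hk2⟩ := hp.exists_mem_finset_dvd h3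
        obtain ⟨c, hc⟩ := hpc (A k) hk2
        exact hA.2 k i (Finset.ne_of_mem_erase hk) c hc
      · exact h3
    · by_contra hcon
      push Not at hcon
      apply hv0
      funext i
      have h1 : v i * (C (n : K) * f) = 0 := by
        rw [← heu, Finset.mul_sum]
        have h2 : ∀ j, v i * (X j * pderiv j f) = X i * (v j * pderiv j f) := by
          intro j
          rw [← mul_assoc, ← mul_assoc, hcon i j, mul_comm (v i)]
        rw [Finset.sum_congr rfl fun j _ => h2 j, ← Finset.mul_sum, hf, hv, mul_zero]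
      rcases mul_eq_zero.1 h1 with h3 | h3
      · exact h3
      · exact absurd h3 (mul_ne_zero hCn hf0)
  · rintro ⟨v, hv, hvh, i₀, j₀, hne⟩
    have hv0 : v ≠ 0 := by
      rintro rfl
      apply hne
      simp
    by_cases hD : ∑ j, v j * pderiv j f = 0
    · refine ⟨v, ?_, hvh, hv0⟩
      unfold IsSyz
      rw [← hf]
      exact hD
    have hdv : f ∣ ∑ j, v j * pderiv j f := by
      rw [hf, leib A v Finset.univ]
      refine Finset.dvd_sum fun i _ => ?_
      rw [← Finset.mul_prod_erase _ _ (Finset.mem_univ i), mul_comm]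
      exact mul_dvd_mul_left _ (hv i)
    obtain ⟨g, hg⟩ := hdv
    have hDh : (∑ j, v j * pderiv j f).IsHomogeneous (e + (n - 1)) :=
      IsHomogeneous.sum _ _ _ fun j _ => (hvh j).mul hfh.pderiv
    have hg0 : g ≠ 0 := by
      rintro rfl
      exact hD (by rw [hg, mul_zero])
    have hdeg : n + g.totalDegree = e + (n - 1) := by
      rw [← hfh.totalDegree hf0, ← totalDegree_mul_of_isDomain hf0 hg0, ← hg,
        hDh.totalDegree hD, hfh.totalDegree hf0]
    obtain ⟨e', rfl⟩ : ∃ e', e = e' + 1 := ⟨e - 1, by omega⟩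
    have hDh' : (∑ j, v j * pderiv j f).IsHomogeneous (n + e') := by
      have : n + e' = e' + 1 + (n - 1) := by omega
      rw [this]
      exact hDh
    have hg' := hom_fac hfh hDh' hg
    obtain ⟨g', hg1, hg2⟩ : ∃ g' : MvPolynomial (Fin 3) K, g'.IsHomogeneous e' ∧
        ∑ j, v j * pderiv j f = f * g' :=
      ⟨_, homogeneousComponent_isHomogeneous e' g, hg'⟩
    refine ⟨fun j => v j - C (n : K)⁻¹ * g' * X j, ?_, fun j => ?_, fun h => ?_⟩
    · unfold IsSyz
      rw [← hf]
      have h1 : ∀ j, (v j - C (n : K)⁻¹ * g' * X j) * pderiv j f =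
          v j * pderiv j f - C (n : K)⁻¹ * g' * (X j * pderiv j f) := by
        intro j
        ring
      rw [Finset.sum_congr rfl fun j _ => h1 j, Finset.sum_sub_distrib, ← Finset.mul_sum, heu, hg2]
      have h2 : (C (n : K)⁻¹ : MvPolynomial (Fin 3) K) * C (n : K) = 1 := by
        rw [← C_mul, inv_mul_cancel₀ hn0, C_1]
      linear_combination (-(g' * f)) * h2
    · refine (hvh j).sub ?_
      have h1 : (C (n : K)⁻¹ * g' * X j : MvPolynomial (Fin 3) K).IsHomogeneous (0 + e' + 1) :=
        ((isHomogeneous_C _ _).mul hg1).mul (isHomogeneous_X _ _)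
      rw [zero_add] at h1
      exact h1
    · apply hne
      have h1 : ∀ j, v j = C (n : K)⁻¹ * g' * X j := fun j => sub_eq_zero.1 (congrFun h j)
      rw [h1 i₀, h1 j₀]
      ring

end Pool.Agent.H82.GS
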